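import Pool.Agent.N422.SW3

/-!
# Arbitrary sieve weights of level 1/2 see the expected number of primes in every interval of length `C log X log log X`

Author: helper422.  For nonnegative weights `w(n) = ∑_{d ≤ Q} c_d(n mod d)`, `Q ≤ X^(1/2) (log X)^(-B)`, with coefficients
bounded in mean square by powers of `log X` relative to the mass (no further structure is assumed, in particular `w` need
not be a sum of squares), the mean of `π(n + U) - π(n)` over `X < n ≤ 2X` with respect to `w` is `(1 + O(ε)) U / log X`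
as soon as `U ≥ A log X log log X`.  So no such weight finds a gap between primes longer than this.

Proof.  `Pool.Agent.Y829.RS` (helper829, starting files) proves this for `U ≥ log X (log log X)^3`: the theorem of
Bombieri and Vinogradov leads to the mean over a period of `w(n) S(n)`, where `S(n)` is the number of integers of
`(n, n + U]` free of the primes `p ≤ Q`, and `S` is concentrated outside of a set of density `(log X)^(-C)`, which the
weight does not see.  New is the exponential moment of `S` with a loss of the right order (`N422.SW1.expG`,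
`N422.SW1.devi2`: `P(|S - M| > ε M) ≤ 2 exp(-ε² M / 64)`), which gives the concentration for `U ≥ A log X log log X`.
-/

set_option autoImplicit false

open Finset

namespace Pool.Agent.Results.MP_028722_nt.AllSieveWeights

/-- the weight `w(n) = ∑_{d ≤ Q} c_d(n mod d)` -/
noncomputable def weight (Q : ℕ) (c : ℕ → ℕ → ℝ) (n : ℕ) : ℝ := ∑ d ∈ Icc 1 Q, c d (n % d)

/-- `s(d) = ∑_{a mod d} |c_d(a)|` -/
noncomputable def size (c : ℕ → ℕ → ℝ) (d : ℕ) : ℝ := ∑ a ∈ range d, |c d a|

/-- the mass of the weight on `(X, 2X]` -/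
noncomputable def mass (X Q : ℕ) (c : ℕ → ℕ → ℝ) : ℝ := ∑ n ∈ Ioc X (2 * X), weight Q c n

/-- the level `Q` is at most `X^(1/2) (log X)^(-B/2)`, `w` is nonnegative, `∑_{d ≤ Q} s(d)² / d ≤ (log X)^K` and the mass
is at least `X / (log X)^K` -/
def Good (K B X Q : ℕ) (c : ℕ → ℕ → ℝ) : Prop :=
  1 ≤ Q ∧ (Q : ℝ) ^ 2 * Real.log X ^ B ≤ X ∧ (∀ n, 0 ≤ weight Q c n) ∧
    ∑ d ∈ Icc 1 Q, size c d ^ 2 / d ≤ Real.log X ^ K ∧ X / Real.log X ^ K ≤ mass X Q c

/-- `π(n + U) - π(n)` -/
noncomputable def primesIn (U n : ℕ) : ℝ := (((Ioc n (n + U)).filter Nat.Prime).card : ℝ)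

/-- For all `K` and `ε > 0` there are `A`, `B`, `X₀` such that for `X ≥ X₀`, all `U` with
`A log X log log X ≤ U ≤ X` and every `Good` weight `w` the mean of `π(n + U) - π(n)` over `X < n ≤ 2X` with respect to
`w` is `U / log X` up to a relative error at most `ε`. -/
theorem result : ∀ (K : ℕ) (ε : ℝ), 0 < ε → ∃ (A : ℝ) (B X₀ : ℕ), ∀ X : ℕ, X₀ ≤ X → ∀ (Q : ℕ) (c : ℕ → ℕ → ℝ),
    Good K B X Q c → ∀ U : ℕ, A * (Real.log X * Real.log (Real.log X)) ≤ U → U ≤ X →
      |∑ n ∈ Ioc X (2 * X), weight Q c n * primesIn U n - U / Real.log X * mass X Q c| ≤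
        ε * (U / Real.log X * mass X Q c) := by
  intro K ε hε
  obtain ⟨b, hb⟩ := exists_pow_lt_of_lt_one hε (show (1 / 2 : ℝ) < 1 by norm_num)
  obtain ⟨A, -, B, X₀, h⟩ := Pool.Agent.N422.SW.main_all2 K b
  refine ⟨A, B, X₀, ?_⟩
  intro X hX Q c hc U hU hUX
  obtain ⟨g1, g2, g3, g4, g5⟩ := hc
  have h1 := h X U Q hX hU hUX g1 g2 c g3 g4 g5
  refine h1.trans ?_
  apply mul_le_mul_of_nonneg_right hb.le
  have h2 : 0 ≤ mass X Q c := sum_nonneg fun n _ => g3 n
  have h3 : 0 ≤ Real.log X := Real.log_natCast_nonneg X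
  positivity

end Pool.Agent.Results.MP_028722_nt.AllSieveWeights
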