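import Pool.Agent.N372.BF.Sets

set_option autoImplicit false

/-!
# Record prime gaps around the values of real bilinear forms over arbitrary sets

`f(N) = log N (log₂ N)² log₄ N / (log₃ N)²` is the record scale for gaps between primes (`logₖ` is
the iterated logarithm).  We find prime-free intervals of length `≫ f(N)` around the values which a
real bilinear form takes on a product `A × B` of two **arbitrary** finite sets, as soon as
`|A||B|` is a little larger than the large-sieve threshold, and around several forms at once.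

* (A) `r` real `d × d` matrices `T_j`, and arbitrary real functions `φ_j`, `ψ_j` added: if the
  integer combinations of the `T_j x` (with coefficients up to `N^σ`, `x` integral of size at most
  `N^ρ`) stay away from the integer points, and `|A||B| ≥ N^{d(2-ρ)+δ}` for `A, B` in the box of
  integer points of height `N`, then for at least `|A||B|N^{-δ}` pairs `(a,b)` one of the values
  `F_j(a,b) = aᵀT_j b + φ_j(a) + ψ_j(b)` is smaller than `N^σ` or every interval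
  `[F_j(a,b) - κf(N), F_j(a,b) + κf(N)]`, `j ≤ r`, is free of primes.
* (B) the case `T_j = α_j·Id`, that is `F_j(a,b) = α_j⟨a,b⟩ + φ_j(a) + ψ_j(b)`, for reals `α_j` with
  the Diophantine condition `Typ` (which holds, with `τ = 1 + ε`, for almost every real `α` if
  `r = 1`).
* (C) products of natural numbers: `α_j a b + φ_j(a) + ψ_j(b)` with `a ∈ A`, `b ∈ B`,
  `|A||B| ≥ N^{2-1/τ+δ}`.
* (D) squared distances of points: `α_j |a - b|²`, `a ∈ A`, `b ∈ B`, `|A||B| ≥ N^{d(2-1/τ)+δ}`.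
* (E), (F) one real number `α > 0` of irrationality measure at most `τ + 1`.
* (G) `τ = 1`, one set: if `α > 0` is irrational with irrationality measure 2 then any set of
  at least `N^{1/2+δ}` natural numbers up to `N` has two different elements `a, b` such
  that no prime is within `κf(N)` of `αab + φ(a) + ψ(b)` (for instance of `√2·ab`, or
  of `√2(a+b)²`).
* (H), (I) the numbers allowed in (E)-(G), `τ = 1`, include almost every positive real, and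
  all positive quadratic irrationals.

`κ` depends only on the parameters `d, r, ρ, δ, σ` (or `d, r, τ, C, δ`) and not on the matrices or
numbers.
-/

namespace Pool.Agent.Results.MP_028722_nt.BilinearFormsOverArbitrarySets

open Filter Pool.Agent.N372

/-- The record function `f(x) = log x (log₂ x)² log₄ x / (log₃ x)²`. -/
noncomputable def f (x : ℝ) : ℝ :=
  Real.log x * (Real.log (Real.log x)) ^ 2 * Real.log (Real.log (Real.log (Real.log x))) /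
    (Real.log (Real.log (Real.log x))) ^ 2

/-- The interval `[x - D, x + D]` contains no prime. -/
def PrimeFreeAround (x D : ℝ) : Prop := ∀ q : ℕ, q.Prime → D < |(q : ℝ) - x|

/-- The real bilinear form `aᵀTb` at integer points. -/
noncomputable def form {d : ℕ} (T : Matrix (Fin d) (Fin d) ℝ) (a b : Fin d → ℤ) : ℝ :=
  ∑ i, (a i : ℝ) * ∑ k, T i k * (b k : ℝ)

/-- The inner product of integer points. -/
def dot {d : ℕ} (a b : Fin d → ℤ) : ℤ := ∑ i, a i * b i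

/-- The square of the distance of integer points. -/
def distSq {d : ℕ} (a b : Fin d → ℤ) : ℤ := ∑ i, (a i - b i) ^ 2

/-- The set lies in the box `[-N, N]^d`. -/
def InBox {d : ℕ} (N : ℕ) (A : Finset (Fin d → ℤ)) : Prop := ∀ a ∈ A, ∀ i, |a i| ≤ (N : ℤ)

/-- `Away T N σ ρ η`: for all integer vectors `h ≠ 0` (entries at most `N^σ`) and `x ≠ 0` (entries
at most `N^ρ`), the vector `Σ_j h_j T_j x` has distance at least `N^{-(1+η)}` (in the maximum norm)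
from every integer point. -/
def Away {d r : ℕ} (T : Fin r → Matrix (Fin d) (Fin d) ℝ) (N : ℕ) (σ ρ η : ℝ) : Prop :=
  ∀ (h : Fin r → ℤ) (x : Fin d → ℤ), h ≠ 0 → x ≠ 0 → (∀ j, |(h j : ℝ)| ≤ (N : ℝ) ^ σ) →
    (∀ i, |(x i : ℝ)| ≤ (N : ℝ) ^ ρ) → ∀ m : Fin d → ℤ, ∃ i,
    (N : ℝ) ^ (-(1 + η)) ≤ |∑ j, (h j : ℝ) * ∑ k, T j i k * (x k : ℝ) - m i|

/-- Diophantine condition of type `τ`, uniform in the coefficients: for some `c > 0`,
`|k Σ_j h_j α_j - m| ≥ c k^{-τ} H^{-C}` for all naturals `k ≥ 1` and `H`, all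
nonzero integer vectors `h` with entries at most `H`, and all integers `m`. -/
def Typ {r : ℕ} (τ C : ℝ) (α : Fin r → ℝ) : Prop := ∃ c : ℝ, 0 < c ∧
  ∀ (k H : ℕ) (h : Fin r → ℤ) (m : ℤ), 1 ≤ k → h ≠ 0 → (∀ j, |h j| ≤ H) →
    c * (k : ℝ) ^ (-τ) * (H : ℝ) ^ (-C) ≤ |(k : ℝ) * ∑ j, (h j : ℝ) * α j - m|

/-- `α` is a positive irrational number of irrationality measure at most `τ + 1`. -/
def OfMeasure (τ α : ℝ) : Prop :=
  0 < α ∧ Irrational α ∧ ∀ p : ℝ, τ + 1 < p → ¬ LiouvilleWith p α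

open Classical in
/-- the pairs with a property -/
noncomputable def pairs {X : Type} (A B : Finset X) (P : X → X → Prop) : Finset (X × X) :=
  (A ×ˢ B).filter fun w => P w.1 w.2

lemma form_scalar {d : ℕ} (x : ℝ) (a b : Fin d → ℤ) :
    BF.bil (BF.diag d x) a b = x * (dot a b : ℤ) := by
  rw [BF.bil_diag]
  unfold dot
  push_cast
  rfl

lemma card_pairs {X : Type} {A B : Finset X} {P : X → X → Prop} (s : Finset (X × X))
    (h : ∀ w ∈ s, w ∈ A ×ˢ B ∧ P w.1 w.2) : (s.card : ℝ) ≤ ((pairs A B P).card : ℝ) := by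
  classical
  have h2 : s ⊆ pairs A B P := by
    intro w hw
    unfold pairs
    rw [Finset.mem_filter]
    exact h w hw
  exact_mod_cast Finset.card_le_card h2

lemma ae_irr : ∀ᵐ α : ℝ, Irrational α := by
  have h : (Set.range ((↑) : ℚ → ℝ)).Countable := Set.countable_range _
  filter_upwards [h.ae_notMem MeasureTheory.volume] with α hα
  exact hα

theorem result :
    -- (A) real bilinear forms with matrices `T_j`
    (∀ (d r : ℕ), 1 ≤ r → ∀ ρ δ σ : ℝ, 0 < ρ → ρ ≤ 1 → 0 < δ → δ ≤ 1 → 0 < σ →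
      σ ≤ δ / (16 * ((d : ℝ) + 1)) → ∃ κ : ℝ, 0 < κ ∧ ∀ᶠ N : ℕ in atTop,
      ∀ T : Fin r → Matrix (Fin d) (Fin d) ℝ, Away T N σ ρ (δ / (16 * ((d : ℝ) + 1))) →
      ∀ A B : Finset (Fin d → ℤ), InBox N A → InBox N B →
      (N : ℝ) ^ (d * (2 - ρ) + δ) ≤ A.card * B.card →
      ∀ φ ψ : Fin r → (Fin d → ℤ) → ℝ, A.card * B.card * (N : ℝ) ^ (-δ) ≤
        ((pairs A B fun a b => (∃ j, form (T j) a b + φ j a + ψ j b < (N : ℝ) ^ σ) ∨
          ∀ j, PrimeFreeAround (form (T j) a b + φ j a + ψ j b) (κ * f N)).card : ℝ)) ∧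
    -- (B) real multiples of the inner product
    (∀ (d r : ℕ), 1 ≤ r → ∀ τ C δ : ℝ, 1 ≤ τ → 0 ≤ C → 0 < δ → δ ≤ 1 →
      ∃ σ κ : ℝ, 0 < σ ∧ σ ≤ δ / (16 * ((d : ℝ) + 1)) ∧ 0 < κ ∧ ∀ α : Fin r → ℝ, Typ τ C α →
      ∀ᶠ N : ℕ in atTop, ∀ A B : Finset (Fin d → ℤ), InBox N A → InBox N B →
      (N : ℝ) ^ (d * (2 - 1 / τ) + δ) ≤ A.card * B.card →
      ∀ φ ψ : Fin r → (Fin d → ℤ) → ℝ, A.card * B.card * (N : ℝ) ^ (-δ) ≤
        ((pairs A B fun a b => (∃ j, α j * dot a b + φ j a + ψ j b < (N : ℝ) ^ σ) ∨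
          ∀ j, PrimeFreeAround (α j * dot a b + φ j a + ψ j b) (κ * f N)).card : ℝ)) ∧
    -- (C) products of natural numbers
    (∀ r : ℕ, 1 ≤ r → ∀ τ C δ : ℝ, 1 ≤ τ → 0 ≤ C → 0 < δ → δ ≤ 1 →
      ∃ κ : ℝ, 0 < κ ∧ ∀ α : Fin r → ℝ, (∀ j, 0 < α j) → Typ τ C α →
      ∀ᶠ N : ℕ in atTop, ∀ A B : Finset ℕ, (∀ a ∈ A, 1 ≤ a ∧ a ≤ N) →
      (∀ b ∈ B, 1 ≤ b ∧ b ≤ N) → (N : ℝ) ^ (2 - 1 / τ + δ) ≤ A.card * B.card →
      ∀ φ ψ : Fin r → ℕ → ℝ, (∀ j n, 0 ≤ φ j n) → (∀ j n, 0 ≤ ψ j n) →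
      A.card * B.card * (N : ℝ) ^ (-δ) ≤
        ((pairs A B fun a b =>
          ∀ j, PrimeFreeAround (α j * a * b + φ j a + ψ j b) (κ * f N)).card : ℝ)) ∧
    -- (D) squares of distances
    (∀ (d r : ℕ), 1 ≤ r → ∀ τ C δ : ℝ, 1 ≤ τ → 0 ≤ C → 0 < δ → δ ≤ 1 →
      ∃ κ : ℝ, 0 < κ ∧ ∀ α : Fin r → ℝ, (∀ j, 0 < α j) → Typ τ C α →
      ∀ᶠ N : ℕ in atTop, ∀ A B : Finset (Fin d → ℤ), InBox N A → InBox N B →
      (N : ℝ) ^ (d * (2 - 1 / τ) + δ) ≤ A.card * B.card →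
      A.card * B.card * (N : ℝ) ^ (-δ) ≤
        ((pairs A B fun a b => ∀ j, PrimeFreeAround (α j * distSq a b) (κ * f N)).card : ℝ)) ∧
    -- (E) one number and products of natural numbers
    (∀ τ δ : ℝ, 1 ≤ τ → 0 < δ → δ ≤ 1 → ∃ κ : ℝ, 0 < κ ∧ ∀ α : ℝ, OfMeasure τ α →
      ∀ᶠ N : ℕ in atTop, ∀ A B : Finset ℕ, (∀ a ∈ A, 1 ≤ a ∧ a ≤ N) →
      (∀ b ∈ B, 1 ≤ b ∧ b ≤ N) → (N : ℝ) ^ (2 - 1 / τ + δ) ≤ A.card * B.card →
      ∀ φ ψ : ℕ → ℝ, (∀ n, 0 ≤ φ n) → (∀ n, 0 ≤ ψ n) →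
      A.card * B.card * (N : ℝ) ^ (-δ) ≤
        ((pairs A B fun a b => PrimeFreeAround (α * a * b + φ a + ψ b) (κ * f N)).card : ℝ)) ∧
    -- (F) one number and squares of distances
    (∀ (d : ℕ) (τ δ : ℝ), 1 ≤ τ → 0 < δ → δ ≤ 1 → ∃ κ : ℝ, 0 < κ ∧ ∀ α : ℝ, OfMeasure τ α →
      ∀ᶠ N : ℕ in atTop, ∀ A B : Finset (Fin d → ℤ), InBox N A → InBox N B →
      (N : ℝ) ^ (d * (2 - 1 / τ) + δ) ≤ A.card * B.card →
      A.card * B.card * (N : ℝ) ^ (-δ) ≤
        ((pairs A B fun a b => PrimeFreeAround (α * distSq a b) (κ * f N)).card : ℝ)) ∧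
    -- (G) one set with at least `N^{1/2+δ}` elements
    (∀ δ : ℝ, 0 < δ → δ ≤ 1 → ∃ κ : ℝ, 0 < κ ∧ ∀ α : ℝ, OfMeasure 1 α →
      ∀ᶠ N : ℕ in atTop, ∀ A : Finset ℕ, (∀ a ∈ A, 1 ≤ a ∧ a ≤ N) →
      (N : ℝ) ^ (1 / 2 + δ) ≤ A.card →
      ∀ φ ψ : ℕ → ℝ, (∀ n, 0 ≤ φ n) → (∀ n, 0 ≤ ψ n) → ∃ a ∈ A, ∃ b ∈ A, a ≠ b ∧
        PrimeFreeAround (α * a * b + φ a + ψ b) (κ * f N)) ∧
    -- (H) almost every positive number is allowed
    (∀ᵐ α : ℝ, 0 < α → OfMeasure 1 α) ∧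
    -- (I) positive quadratic irrationals are allowed
    (∀ α : ℝ, 0 < α → Irrational α → ∀ g : Polynomial ℤ, g ≠ 0 → Polynomial.aeval α g = 0 →
      g.natDegree ≤ 2 → OfMeasure 1 α) := by
  classical
  refine ⟨?_, ?_, ?_, ?_, ?_, ?_, ?_, ?_, ?_⟩
  · intro d r hr ρ δ σ hρ0 hρ1 hδ hδ1 hσ hση
    obtain ⟨κ, hκ, h⟩ := BF.main d r hr ρ δ σ hρ0 hρ1 hδ hδ1 hσ hση
    refine ⟨κ, hκ, ?_⟩
    filter_upwards [h] with N hN
    intro T hT A B hA hB hAB φ ψ
    refine (hN T hT A B hA hB hAB φ ψ).trans (card_pairs _ fun w hw => ?_)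
    unfold BF.GG at hw
    rw [Finset.mem_filter] at hw
    exact hw
  · intro d r hr τ C δ hτ hC hδ hδ1
    obtain ⟨σ, κ, hσ, hση, hκ, h⟩ := BF.scal d r hr τ C δ hτ hC hδ hδ1
    refine ⟨σ, κ, hσ, hση, hκ, ?_⟩
    intro α hα
    filter_upwards [h α hα] with N hN
    intro A B hA hB hAB φ ψ
    refine (hN A B hA hB hAB φ ψ).trans (card_pairs _ fun w hw => ?_)
    unfold BF.GG at hw
    rw [Finset.mem_filter] at hw
    simp only [form_scalar] at hw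
    exact hw
  · intro r hr τ C δ hτ hC hδ hδ1
    obtain ⟨κ, hκ, h⟩ := BF.prods r hr τ C δ hτ hC hδ hδ1
    refine ⟨κ, hκ, ?_⟩
    intro α hα0 hα
    filter_upwards [h α hα0 hα] with N hN
    intro A B hA hB hAB φ ψ hφ hψ
    refine (hN A B hA hB hAB φ ψ hφ hψ).trans (card_pairs _ fun w hw => ?_)
    unfold BF.PP at hw
    rw [Finset.mem_filter] at hw
    exact hw
  · intro d r hr τ C δ hτ hC hδ hδ1
    obtain ⟨κ, hκ, h⟩ := BF.dists d r hr τ C δ hτ hC hδ hδ1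
    refine ⟨κ, hκ, ?_⟩
    intro α hα0 hα
    filter_upwards [h α hα0 hα] with N hN
    intro A B hA hB hAB
    refine (hN A B hA hB hAB).trans (card_pairs _ fun w hw => ?_)
    unfold BF.QQ at hw
    rw [Finset.mem_filter] at hw
    exact hw
  · intro τ δ hτ hδ hδ1
    obtain ⟨κ, hκ, h⟩ := BF.prod_one τ δ hτ hδ hδ1
    refine ⟨κ, hκ, ?_⟩
    intro α hα
    filter_upwards [h α hα.1 hα.2.1 hα.2.2] with N hN
    intro A B hA hB hAB φ ψ hφ hψ
    refine (hN A B hA hB hAB φ ψ hφ hψ).trans (card_pairs _ fun w hw => ?_)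
    unfold BF.PP at hw
    rw [Finset.mem_filter] at hw
    exact ⟨hw.1, hw.2 0⟩
  · intro d τ δ hτ hδ hδ1
    obtain ⟨κ, hκ, h⟩ := BF.dist_one d τ δ hτ hδ hδ1
    refine ⟨κ, hκ, ?_⟩
    intro α hα
    filter_upwards [h α hα.1 hα.2.1 hα.2.2] with N hN
    intro A B hA hB hAB
    refine (hN A B hA hB hAB).trans (card_pairs _ fun w hw => ?_)
    unfold BF.QQ at hw
    rw [Finset.mem_filter] at hw
    exact ⟨hw.1, hw.2 0⟩
  · intro δ hδ hδ1
    obtain ⟨κ, hκ, h⟩ := BF.prod_set δ hδ hδ1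
    refine ⟨κ, hκ, ?_⟩
    intro α hα
    exact h α hα.1 hα.2.1 (fun p hp => hα.2.2 p (by linarith))
  · filter_upwards [ae_not_liouvilleWith, ae_irr] with α h1 h2 hα
    exact ⟨hα, h2, fun p hp => h1 p (by linarith)⟩
  · intro α hα hirr g hg hgα h2
    exact ⟨hα, hirr, fun p hp => BF.quad_not hirr g hg hgα h2 p (by linarith)⟩

end Pool.Agent.Results.MP_028722_nt.BilinearFormsOverArbitrarySets
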