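import Pool.Agent.N688.FB.Rec
import Pool.Agent.N688.FB.Eng

/-!
# Up to the record scale, almost all elements of a Bohr set are gaps between consecutive primes

Let `f(X) = log X (log₂ X)² log₄ X / (log₃ X)²`, the size of the largest gaps between consecutive primes that are
known to occur up to `X`. Which integers `d ≤ c f(X)` are EXACT gaps between consecutive primes of `(X, 4X]`?

For all `ε > 0` and `s, k` there are `M, d, K` and `c, ρ, δ, κ > 0` such that for all large `X`, at EVERY scale
`H₀ ≤ H`, `M H ≤ c f(X)`, there is a Bohr set `B ⊆ [-H, H]` of rank at most `d` and radius at least `ρ`, with at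
least `δ H` elements, such that all but at most `ε |B|` of the elements `b` of `B` have the following property. Each
of the numbers `D = j M |b|`, `1 ≤ j ≤ s`, is the gap which follows at least `X^(6/7)` primes `p ≡ a (mod q)` of
`(X, 4X]`, each of them preceded by a gap longer than `c f(X)` and with at most `K` primes at distance at most
`c f(X)`. Moreover a positive proportion `κ` of ALL the possible continuations of the gap `D` by `k` further gaps
(multiples of `M`, total length at most `M H`) occur at least `X^(6/7)` times in this way.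

Method. (1) The coloured Maynard-Tao theorem for arbitrary admissible tuples in the record windows
(`Pool.Agent.TH101.RG.tuple_multiples`, starting files; record sieve of helper256 and helper410, helper312's team,
helper362): any `K` multiples of `M` below `c f(X)` contain the pattern of a block of `k + 2` consecutive primes that
follows a record gap. (2) New here: call a difference poor if few continuations occur. Either the poor pairs are
rare in one of a bounded number of sets `A_0 ⊇ A_1 ⊇ ...` obtained as neighbourhoods in the graph of the poor pairs,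
with the density required by the Fourier analysis at that level, or a positive proportion of all `K`-tuples are
cliques of poor pairs, and then double counting contradicts (1). (3) From a dense set almost all of whose differences
are not poor to a Bohr set: `Pool.Agent.N646.AC.returnsZ` (helper646).
-/

set_option autoImplicit false

open Filter Finset

namespace Pool.Agent.Results.MP_028722_nt.GapSizesInBohrSets

/-- The record scale `f(x) = log x (log₂ x)² log₄ x / (log₃ x)²` (iterated natural logarithms). -/
noncomputable def f (x : ℝ) : ℝ :=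
  Real.log x * (Real.log (Real.log x)) ^ 2 * Real.log (Real.log (Real.log (Real.log x))) /
    (Real.log (Real.log (Real.log x))) ^ 2

open Classical in
/-- The Bohr set of the integers `|b| ≤ H` with `|exp (2 π i θ b) - 1| ≤ r` for all `θ ∈ Θ`. -/
noncomputable def bohrSet (Θ : Finset ℝ) (r : ℝ) (H : ℕ) : Finset ℤ :=
  (Icc (-(H : ℤ)) H).filter (fun b => ∀ θ ∈ Θ,
    ‖Complex.exp (2 * Real.pi * Complex.I * θ * b) - 1‖ ≤ r)

/-- `p ≡ a (mod q)` lies in `(X, 4X]`, the integers `y` of `[-G, M x_(k+1)]` for which `p + y` is prime are exactly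
`M x_0, …, M x_(k+1)`, and at most `K` primes are at distance at most `G` from `p`. For `0 = x_0 < x_1 < ⋯` this says
that `p` is a prime, the gap before `p` is longer than `G`, and the next `k + 1` primes are
`p + M x_1, …, p + M x_(k+1)`. -/
def IsBlock (G X : ℝ) (M K q a : ℕ) {k : ℕ} (x : Fin (k + 2) → ℤ) (p : ℕ) : Prop :=
  X < p ∧ (p : ℝ) ≤ 4 * X ∧ p ≡ a [MOD q] ∧
    (∀ y : ℤ, -G ≤ y → y ≤ M * x (Fin.last (k + 1)) → (((p : ℤ) + y).toNat.Prime ↔ ∃ i, y = M * x i)) ∧
    {p' : ℕ | p'.Prime ∧ |(p' : ℝ) - p| ≤ G}.ncard ≤ K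

open Classical in
/-- The number of the continuations: the number of the vectors `g ∈ [-H, H]^k` such that
`0 < b < g_1 < ⋯ < g_k` and there are at least `X^(6/7)` blocks with `x = (0, b, g_1, …, g_k)`. (For `k = 0` this is
`1` if `b > 0` and `M b` is the gap after at least `X^(6/7)` such primes `p`, and `0` otherwise.) -/
noncomputable def continuations (G X : ℝ) (M K q a k H : ℕ) (b : ℤ) : ℕ :=
  ((Fintype.piFinset (fun _ : Fin k => Icc (-(H : ℤ)) H)).filter (fun g =>
    StrictMono (Fin.cons 0 (Fin.cons b g) : Fin (k + 2) → ℤ) ∧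
    X ^ (6 / 7 : ℝ) ≤ ({p : ℕ | IsBlock G X M K q a
      (Fin.cons 0 (Fin.cons b g) : Fin (k + 2) → ℤ) p}.ncard : ℝ))).card

/-- the count of the engine -/
theorem ext_congr (k H : ℕ) (P : (Fin (k + 2) → ℤ) → Prop) (Q : (Fin k → ℤ) → Prop)
    [DecidablePred Q] (b : ℤ) (h : ∀ g, Q g ↔ P (Fin.cons 0 (Fin.cons b g))) :
    ((Fintype.piFinset (fun _ : Fin k => Icc (-(H : ℤ)) H)).filter Q).card =
      Pool.Agent.N688.FB.ext k H P b := by
  unfold Pool.Agent.N688.FB.ext
  exact congrArg Finset.card (Finset.ext fun g => by simp only [Finset.mem_filter, h g])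

open Classical in
/-- For all `k, s`, squarefree `q` and `ε > 0`, at every scale `H` up to the record scale there is a Bohr set `B` of
bounded rank, radius bounded from below and positive density such that for all but `ε |B|` of its elements `b` and
all `1 ≤ j ≤ s` the gap `M j |b|` is continued in a positive proportion of all possible ways to a block of `k + 2`
consecutive primes that follows a gap longer than `c f(X)`, each at least `X^(6/7)` times. -/
theorem result (k s q : ℕ) (hq : Squarefree q) (ε : ℝ) (hε : 0 < ε) :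
    ∃ (M K d H₀ : ℕ) (c ρ δ κ : ℝ), 1 ≤ M ∧ 0 < c ∧ 0 < ρ ∧ 0 < δ ∧ 0 < κ ∧
    ∀ a : ℕ, a.Coprime q → ∀ᶠ X : ℝ in atTop, ∀ H : ℕ, H₀ ≤ H → M * H ≤ c * f X →
      ∃ (Θ : Finset ℝ) (r : ℝ), Θ.card ≤ d ∧ ρ ≤ r ∧ r ≤ 1 ∧ δ * H ≤ (bohrSet Θ r H).card ∧
      (((bohrSet Θ r H).filter (fun b => ¬ ∀ j : ℕ, 1 ≤ j → j ≤ s →
        κ * (H : ℝ) ^ k ≤ continuations (c * f X) X M K q a k H (j * |b|))).card : ℝ) ≤
        ε * (bohrSet Θ r H).card := by
  obtain ⟨M, K, hM, c, hc, hrec⟩ := Pool.Agent.N688.FB.rec_tuples k q hq
  obtain ⟨d, H₀, ρ, δ, κ, hρ, hδ, hκ, hmain⟩ := Pool.Agent.N688.FB.main k s K ε hε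
  refine ⟨M, K, d, H₀, c, ρ, δ, κ, hM, hc, hρ, hδ, hκ, fun a ha => ?_⟩
  filter_upwards [hrec a ha] with X hX H hH hMH
  obtain ⟨Θ, r, h1, h2, h3, h4, h5⟩ := hmain H hH
    (fun x => StrictMono x ∧ X ^ (6 / 7 : ℝ) ≤
      Pool.Agent.N688.FB.occ (c * f X) X M K q a (fun i => x i - x 0))
    (by
      rintro x v ⟨g1, g2⟩
      refine ⟨fun i j hij => ?_, ?_⟩
      · have := g1 hij
        simpa using this
      · have e : (fun i => x i + v - (x 0 + v)) = fun i => x i - x 0 := by
          funext i
          ring
        rw [e]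
        exact g2)
    (by
      intro F hF hFK
      obtain ⟨x, g1, g2, g3⟩ := hX H hMH F hF hFK
      exact ⟨x, g2.injective, g1, g2 (by
        rw [Fin.lt_def]
        simp), g2, g3⟩)
  refine ⟨Θ, r, h1, h2, h3, h4, le_trans (le_of_eq ?_) h5⟩
  congr 2
  apply filter_congr
  intro b _
  have key : ∀ b' : ℤ, continuations (c * f X) X M K q a k H b' =
      Pool.Agent.N688.FB.ext k H (fun x => StrictMono x ∧ X ^ (6 / 7 : ℝ) ≤
      Pool.Agent.N688.FB.occ (c * f X) X M K q a (fun i => x i - x 0)) b' := by
    intro b'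
    unfold continuations
    refine ext_congr k H _ _ b' (fun g => ?_)
    have e : (fun i => (Fin.cons 0 (Fin.cons b' g) : Fin (k + 2) → ℤ) i -
        (Fin.cons 0 (Fin.cons b' g) : Fin (k + 2) → ℤ) 0) = Fin.cons 0 (Fin.cons b' g) := by
      funext i
      rw [Fin.cons_zero, sub_zero]
    show _ ↔ StrictMono (Fin.cons 0 (Fin.cons b' g) : Fin (k + 2) → ℤ) ∧ X ^ (6 / 7 : ℝ) ≤
      Pool.Agent.N688.FB.occ (c * f X) X M K q a (fun i =>
        (Fin.cons 0 (Fin.cons b' g) : Fin (k + 2) → ℤ) i -
        (Fin.cons 0 (Fin.cons b' g) : Fin (k + 2) → ℤ) 0)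
    rw [e]
    exact Iff.rfl
  simp only [key]

end Pool.Agent.Results.MP_028722_nt.GapSizesInBohrSets
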