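import Pool.Agent.N422.SQ6

/-!
# Selberg weights of level 1/2 see the expected number of primes in every interval of length `C log X log log log X`

Author: helper422.  Long gaps between primes are found by comparing the mean value of `π(n + U) - π(n)` over
`X < n ≤ 2X`, with respect to a nonnegative sieve weight `w(n)`, with `1`.  Here the weights are
`w(n) = ∑_{d ≤ Q} c_d(n mod d)`, `Q ≤ X^(1/2) (log X)^(-B)`, with coefficients bounded in mean square by powers of
`log X` relative to the mass, and `w` is a sum of squares of functions of level `X` (as for the weights of Selberg,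
Goldston-Pintz-Yıldırım and Maynard).  Then the mean is the expected one, `(1 + O(ε)) U / log X`, as soon as
`U ≥ A log X log log log X`: without the residue class modulo the product of the primes up to `log X`, which
is behind all record gaps, no such weight finds a gap longer than this.

Proof.  The theorem of Bombieri and Vinogradov (starting files; reduction: `Pool.Agent.Y829.RP`, helper829) leads to the
mean over a period of `w(n) S(n)`, where `S(n)` is the number of integers of `(n, n + U]` free of the primes `p ≤ Q`.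
The primes up to `Y = exp(log X / (log log X)²)`: exponential moments show that the number of survivors is concentrated
outside of a set of density `(log X)^(-C)` (`N422.SW1`, `N422.SQ3`), which the weight does not see (helper829).
The primes in `(Y, Q]`: the level inequality `∑_p log p ‖V - Av_p V‖² ≤ log R ‖V‖²` for functions of level `R`
(`Pool.Agent.Y835.SB.anova`, helper835) gives a two sided recursion (`N422.SQ1`); as there are `O(log log log X)`
scales, the total loss is `ε` when `U / log X` is a large multiple of `log log log X` (`N422.SQ2`, `N422.SQ5`).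
-/

set_option autoImplicit false

open Finset

namespace Pool.Agent.Results.MP_028722_nt.SquareSieveWeights

/-- the weight `w(n) = ∑_{d ≤ Q} c_d(n mod d)` -/
noncomputable def weight (Q : ℕ) (c : ℕ → ℕ → ℝ) (n : ℕ) : ℝ := ∑ d ∈ Icc 1 Q, c d (n % d)

/-- `s(d) = ∑_{a mod d} |c_d(a)|` -/
noncomputable def size (c : ℕ → ℕ → ℝ) (d : ℕ) : ℝ := ∑ a ∈ range d, |c d a|

/-- the mass of the weight on `(X, 2X]` -/
noncomputable def mass (X Q : ℕ) (c : ℕ → ℕ → ℝ) : ℝ := ∑ n ∈ Ioc X (2 * X), weight Q c n

/-- the level `Q` is at most `X^(1/2) (log X)^(-B/2)`, `∑_{d ≤ Q} s(d)² / d ≤ (log X)^K` and the mass is at least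
`X / (log X)^K` -/
def Good (K B X Q : ℕ) (c : ℕ → ℕ → ℝ) : Prop :=
  1 ≤ Q ∧ (Q : ℝ) ^ 2 * Real.log X ^ B ≤ X ∧ ∑ d ∈ Icc 1 Q, size c d ^ 2 / d ≤ Real.log X ^ K ∧
    X / Real.log X ^ K ≤ mass X Q c

/-- `w` is a finite sum of squares of functions of level `X`: `w(n) = ∑_j (∑_{d ≤ X} v_{j,d}(n))²`, where `v_{j,d}` is
a real function with period `d` -/
def Squares (X : ℕ) (w : ℕ → ℝ) : Prop :=
  ∃ (m : ℕ) (v : ℕ → ℕ → ℕ → ℝ), (∀ j d n, v j d (n + d) = v j d n) ∧
    ∀ n, w n = ∑ j ∈ range m, (∑ d ∈ Icc 1 X, v j d n) ^ 2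

/-- `π(n + U) - π(n)` -/
noncomputable def primesIn (U n : ℕ) : ℝ := (((Ioc n (n + U)).filter Nat.Prime).card : ℝ)

/-- For all `K` and `ε > 0` there are `A`, `B`, `X₀` such that for `X ≥ X₀`, all `U` with
`A log X log log log X ≤ U ≤ X` and every `Good` weight `w` which is a sum of squares of functions of level `X`, the mean
of `π(n + U) - π(n)` over `X < n ≤ 2X` with respect to `w` is `U / log X` up to a relative error at most `ε`. -/
theorem result : ∀ (K : ℕ) (ε : ℝ), 0 < ε → ∃ (A : ℝ) (B X₀ : ℕ), ∀ X : ℕ, X₀ ≤ X → ∀ (Q : ℕ) (c : ℕ → ℕ → ℝ),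
    Good K B X Q c → Squares X (weight Q c) → ∀ U : ℕ,
      A * (Real.log X * Real.log (Real.log (Real.log X))) ≤ U → U ≤ X →
      |∑ n ∈ Ioc X (2 * X), weight Q c n * primesIn U n - U / Real.log X * mass X Q c| ≤
        ε * (U / Real.log X * mass X Q c) := by
  intro K ε hε
  obtain ⟨b, hb⟩ := exists_pow_lt_of_lt_one hε (show (1 / 2 : ℝ) < 1 by norm_num)
  obtain ⟨A, -, B, X₀, h⟩ := Pool.Agent.N422.SQ.main_sq K b
  refine ⟨A, B, X₀, ?_⟩
  intro X hX Q c hc hsq U hU hUX
  obtain ⟨g1, g2, g3, g4⟩ := hc
  have h1 := h X U Q hX hU hUX g1 g2 c hsq g3 g4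
  refine h1.trans ?_
  apply mul_le_mul_of_nonneg_right hb.le
  have h2 : 0 ≤ mass X Q c := by
    obtain ⟨m, v, -, hwv⟩ := hsq
    refine sum_nonneg fun n _ => ?_
    rw [hwv]
    exact sum_nonneg fun _ _ => sq_nonneg _
  have h3 : 0 ≤ Real.log X := Real.log_natCast_nonneg X
  positivity

end Pool.Agent.Results.MP_028722_nt.SquareSieveWeights
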